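import Mathlib
import Pool.Agent.Helper337.PolygonProofC

/-!
# MP_ab53bf_co, Q1: a pair of polygons with the same pattern and parallel edges which cannot be
deformed into each other

The definitions are in `Pool/Agent/Helper337/PolygonDefs.lean`.
-/

set_option autoImplicit false

namespace Pool.Agent.Results.MP_ab53bf_co.NoDeformation

open Set Pool.Agent.Helper337.PolygonPattern

/-- There are two ordinary proper `14`-gons `x`, `y` with the same pattern and with parallel
corresponding edges (even with the same labelled crossing data) such that for no labelling of the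
second one that witnesses the parallelism there is an admissible deformation of the first one into
the second one; in fact every continuous family of polygons with edges parallel to those of `x`
which leads from `x` to `y` contains a polygon that is not ordinary. -/
theorem result : ∃ x y : ZMod 14 → Plane,
    IsPolygon x ∧ IsPolygon y ∧ Ordinary x ∧ Proper x ∧ Ordinary y ∧ Proper y ∧
    SamePattern x y ∧ ParallelEdges x y ∧ SameLabelledPattern x y ∧
    ∀ ρ : ZMod 14 → ZMod 14, IsRelabelling ρ → ParallelEdges x (y ∘ ρ) →
      (¬ ∃ P, IsDeformation x (y ∘ ρ) P) ∧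
      ∀ P : ℝ → ZMod 14 → Plane, (∀ i, ContinuousOn (fun t => P t i) (Icc 0 1)) →
        P 0 = x → P 1 = y ∘ ρ → (∀ t ∈ Icc (0 : ℝ) 1, ParallelEdges x (P t)) →
        ∃ t ∈ Icc (0 : ℝ) 1, ¬ Ordinary (P t) :=
  ⟨xx, yy, polyX, polyY, ordinaryX, properX, ordinaryY, properY, samePattern_xy, parallel_xy,
    labelled_xy, fun ρ h hp => ⟨no_deformation ρ h hp, no_ordinary_path ρ h hp⟩⟩

end Pool.Agent.Results.MP_ab53bf_co.NoDeformation
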